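import Pool.Agent.X12.Nq5

/-!
# Polynomials over `ℚ` and all number fields of bounded degree at once: long orbits are rare
-/

set_option autoImplicit false

namespace Pool.Agent.Results.MP_13bc7b_nt.AllFieldsOfBoundedDegree

open NumberField Polynomial Function Module

/-- The elements of the field `K` with a finite forward orbit under `f`. -/
def Preper (f : ℚ[X]) (K : Type) [Field K] [Algebra ℚ K] : Set K :=
  {z | (Set.range fun k : ℕ => (fun x => aeval x f)^[k] z).Finite}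

/-- The algebraic numbers of degree at most `n` over `ℚ` with a finite forward orbit under `f`. -/
def PreperDeg (n : ℕ) (f : ℚ[X]) : Set ℂ :=
  {z | IsIntegral ℚ z ∧ (minpoly ℚ z).natDegree ≤ n ∧ z ∈ Preper f ℂ}

/-- The polynomials over `ℚ` of degree `d` with leading coefficient `a` and coefficient `0` in
degree `d - 1` for which some positive integer `D ≤ H` makes `D ^ (d - i)` times the coefficient of
degree `i` an integer of absolute value at most `H ^ (d - i)`, for all `i < d`. -/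
def Fam (d : ℕ) (a : ℤ) (H : ℕ) : Set ℚ[X] :=
  {f | f.natDegree = d ∧ f.coeff d = a ∧ f.coeff (d - 1) = 0 ∧
    ∃ D : ℕ, 1 ≤ D ∧ D ≤ H ∧ ∀ i < d, ∃ B : ℤ,
      (B : ℚ) = (D : ℚ) ^ (d - i) * f.coeff i ∧ |B| ≤ (H : ℤ) ^ (d - i)}

/-- The polynomials of the family with a point of exact period more than `d` in some number field
of degree at most `n`. -/
def LongCycle (n d : ℕ) (a : ℤ) (H : ℕ) : Set ℚ[X] :=
  {f | f ∈ Fam d a H ∧ ∃ (K : Type) (_ : Field K) (_ : NumberField K), finrank ℚ K ≤ n ∧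
    ∃ z : K, d < minimalPeriod (fun x => aeval x f) z}

/-- The polynomials of the family with a preperiodic point in some number field of degree at most
`n` whose orbit has more than `N` elements. -/
def LongOrbit (n d : ℕ) (a : ℤ) (H N : ℕ) : Set ℚ[X] :=
  {f | f ∈ Fam d a H ∧ ∃ (K : Type) (_ : Field K) (_ : NumberField K), finrank ℚ K ≤ n ∧
    ∃ z ∈ Preper f K, N < (Set.range fun i : ℕ => (fun x => aeval x f)^[i] z).ncard}

/-- The polynomials of the family with more than `N` preperiodic points of degree at most `n`, or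
with more than `N` preperiodic points in some number field of degree at most `n`. -/
def Many (n d : ℕ) (a : ℤ) (H N : ℕ) : Set ℚ[X] :=
  {f | f ∈ Fam d a H ∧ ((N : ℕ∞) < (PreperDeg n f).encard ∨
    ∃ (K : Type) (_ : Field K) (_ : NumberField K), finrank ℚ K ≤ n ∧
      (N : ℕ∞) < (Preper f K).encard)}

lemma fun_eq (f : ℚ[X]) (K : Type) [Field K] [Algebra ℚ K] :
    (fun x : K => aeval x f) = fun x => (f.map (algebraMap ℚ K)).eval x := by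
  funext x
  rw [Polynomial.eval_map_algebraMap]

lemma preper_eq (f : ℚ[X]) (K : Type) [Field K] [Algebra ℚ K] :
    Preper f K = Pool.Agent.X12.Nf.Pre (f.map (algebraMap ℚ K)) := by
  unfold Preper Pool.Agent.X12.Nf.Pre
  rw [fun_eq]

theorem result (n d : ℕ) (hd : 2 ≤ d) :
    (∀ (m : ℕ) (ε : ℝ), 0 < ε → ∃ C : ℝ, ∀ (H : ℕ) (a : ℤ), 1 ≤ H → a ≠ 0 → |a| ≤ (H : ℤ) ^ m →
      ((LongCycle n d a H).ncard : ℝ) ≤
        C * (H : ℝ) ^ (((1 + (m + 1) * (n * (n + 1) / 2 - 1) : ℕ) : ℝ) + ε)) ∧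
    (∀ (m k : ℕ) (ε : ℝ), 1 ≤ k → 0 < ε → ∃ C : ℝ, ∀ (H : ℕ) (a : ℤ), 1 ≤ H → a ≠ 0 →
      |a| ≤ (H : ℤ) ^ m →
      ((LongOrbit n d a H (k * d + 1)).ncard : ℝ) ≤
        C * (H : ℝ) ^ (((1 + (m + 1) * (n * (n + 1) / 2 - 1) : ℕ) : ℝ) +
          ((m : ℝ) + 1) * n / k + ε) ∧
      ((Many n d a H ((k * d + 1) * d ^ (k * d + 1))).ncard : ℝ) ≤
        C * (H : ℝ) ^ (((1 + (m + 1) * (n * (n + 1) / 2 - 1) : ℕ) : ℝ) +
          ((m : ℝ) + 1) * n / k + ε)) ∧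
    (∀ (H : ℕ) (a : ℤ), 1 ≤ H → a ≠ 0 → (Fam d a H).Finite ∧
      (H : ℝ) ^ (d * (d + 1) / 2) / 4 ≤ ((Fam d a H).ncard : ℝ) ∧
      ((Fam d a H).ncard : ℝ) ≤ 3 ^ (d - 1) * (H : ℝ) ^ (d * (d + 1) / 2)) ∧
    (∀ g : ℚ[X], g.natDegree = d → ∃ (a : ℤ) (H : ℕ) (f : ℚ[X]) (l μ : ℚ), a ≠ 0 ∧ 1 ≤ H ∧
      f ∈ Fam d a H ∧ l ≠ 0 ∧ g.comp (C l * X + C μ) = C l * f + C μ) ∧
    (∀ ε : ℝ, 0 < ε → ∃ C : ℝ, ∀ H : ℕ, 1 ≤ H →
      ((LongCycle 2 2 1 H).ncard : ℝ) ≤ C * (H : ℝ) ^ (1 + ε)) ∧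
    (∀ (k : ℕ) (ε : ℝ), 1 ≤ k → 0 < ε → ∃ C : ℝ, ∀ H : ℕ, 1 ≤ H →
      ((LongOrbit 2 2 1 H (6 * k + 1)).ncard : ℝ) ≤ C * (H : ℝ) ^ (1 + 2 / (k : ℝ) + ε) ∧
      ((Many 2 2 1 H ((6 * k + 1) * 2 ^ (6 * k + 1))).ncard : ℝ) ≤
        C * (H : ℝ) ^ (1 + 2 / (k : ℝ) + ε)) := by
  refine ⟨fun m ε hε => ?_, fun m k ε hk hε => ?_, fun H a hH ha => ?_, fun g hg => ?_,
    fun ε hε => ?_, fun k ε hk hε => ?_⟩
  · obtain ⟨C, -, h⟩ := Pool.Agent.X12.Nu.cyc_count n hd m ε hε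
    refine ⟨C, fun H a hH ha haH => h H a hH ha haH _ ?_⟩
    rintro f ⟨hf, K, i1, i2, hK, z, hz⟩
    refine ⟨hf, K, i1, i2, hK, z, ?_⟩
    rw [fun_eq f K] at hz
    exact hz
  · obtain ⟨C, -, h⟩ := Pool.Agent.X12.Nu.long_count n hd m hk ε hε
    refine ⟨C, fun H a hH ha haH => ⟨h H a hH ha haH _ ?_, h H a hH ha haH _ ?_⟩⟩
    · rintro f ⟨hf, K, i1, i2, hK, z, hz, hzn⟩
      rw [preper_eq] at hz
      rw [fun_eq f K] at hzn
      exact ⟨hf, K, i1, i2, hK, z, hz, Pool.Agent.X12.Nf.inj_of_orbit hzn⟩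
    · rintro f ⟨hf, h1 | ⟨K, i1, i2, hK, h1⟩⟩
      · refine ⟨hf, ?_⟩
        obtain ⟨z, ⟨z1, z2, z3⟩, z4⟩ := Pool.Agent.X12.Nu.exists_long_of
          (f := f.map (algebraMap ℚ ℂ)) hd (by rw [Polynomial.natDegree_map]; exact hf.1) h1
        rw [preper_eq] at z3
        exact Pool.Agent.X12.Nu.to_field z1 z2 z3 z4
      · rw [preper_eq] at h1
        obtain ⟨z, z1, z2⟩ := Pool.Agent.X12.Nf.exists_long hd
          (f := f.map (algebraMap ℚ K)) (by rw [Polynomial.natDegree_map]; exact hf.1) h1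
        exact ⟨hf, K, i1, i2, hK, z, z1, z2⟩
  · obtain ⟨h1, h2⟩ := Pool.Agent.X12.Pg.fam_upper hd a hH
    refine ⟨h1, Pool.Agent.X12.Pg.fam_lower hd ha hH, ?_⟩
    exact_mod_cast h2
  · exact Pool.Agent.X12.Pg.exists_conj hd hg
  · obtain ⟨C, -, h⟩ := Pool.Agent.X12.Nq.cyc_count3 ε hε
    refine ⟨C, fun H hH => h H hH _ ?_⟩
    rintro f ⟨hf, K, i1, i2, hK, z, hz⟩
    refine ⟨hf, K, i1, i2, hK, z, ?_⟩
    rw [fun_eq f K] at hz
    exact hz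
  · obtain ⟨C, -, h⟩ := Pool.Agent.X12.Nq.long_count3 hk ε hε
    refine ⟨C, fun H hH => ⟨h H hH _ ?_, h H hH _ ?_⟩⟩
    · rintro f ⟨hf, K, i1, i2, hK, z, hz, hzn⟩
      rw [preper_eq] at hz
      rw [fun_eq f K] at hzn
      exact ⟨hf, K, i1, i2, hK, z, hz, Pool.Agent.X12.Nf.inj_of_orbit hzn⟩
    · rintro f ⟨hf, h1 | ⟨K, i1, i2, hK, h1⟩⟩
      · refine ⟨hf, ?_⟩
        obtain ⟨z, ⟨z1, z2, z3⟩, z4⟩ := Pool.Agent.X12.Nu.exists_long_of
          (f := f.map (algebraMap ℚ ℂ)) le_rfl (by rw [Polynomial.natDegree_map]; exact hf.1) h1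
        rw [preper_eq] at z3
        exact Pool.Agent.X12.Nu.to_field z1 z2 z3 z4
      · rw [preper_eq] at h1
        obtain ⟨z, z1, z2⟩ := Pool.Agent.X12.Nf.exists_long le_rfl
          (f := f.map (algebraMap ℚ K)) (by rw [Polynomial.natDegree_map]; exact hf.1) h1
        exact ⟨hf, K, i1, i2, hK, z, z1, z2⟩

end Pool.Agent.Results.MP_13bc7b_nt.AllFieldsOfBoundedDegree
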