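import Pool.Agent.Results.MP_13bc7b_nt.AlmostAllEndomorphisms
import Pool.Agent.X174.WinRat

/-!
# ALL endomorphisms of `P^N` with coefficients in cubes around thin sequences: no preperiodic points of small degree

Let `N, D ≥ 1`, let `d` be large and let `M = (N + 1) (N + d choose N)` be the number of coefficients of a system of `N + 1`
forms of degree `d` in `N + 1` variables. For every sequence `v ≥ 1` of exponent of convergence at most `τ` (for
`v_i = i ^ a` this is `1 / a`, for `v_i = b ^ i` it is `0`) and `ρ < 1`: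

(1) outside a set of `x ∈ ℝ^M` of Hausdorff dimension at most `(M - N + τ) / (1 - ρ)`, for all but finitely many `i` ALL
endomorphisms of `P^N` of degree `d` given by a system of forms with integral coefficients in the cube with centre `x v_i`
and side `2 v_i ^ ρ` increase the height of all points of degree at most `D`, and so have no preperiodic point of degree at
most `D`;

(2) outside a set of `x ∈ ℝ^M` of Hausdorff dimension at most `(M - 1 + τ) / (1 - ρ)`, for all but finitely many `i` ALL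
systems of forms with integral coefficients in this cube are endomorphisms of `P^N`.

The number of exceptions is from the starting result `AlmostAllEndomorphisms`.
-/

set_option autoImplicit false

open MvPolynomial

namespace Pool.Agent.Results.MP_13bc7b_nt.EndomorphismsInCubes

open AlmostAllEndomorphisms (Sys IsMorphism IncreasesHeights HasPreperiodicPoint)

/-- the exponent of convergence of the sequence `v` is at most `τ` -/
def ExpLe (v : ℕ → ℝ) (τ : ℝ) : Prop := ∀ t : ℝ, τ < t → Summable (fun n : ℕ => (v n) ^ (-t))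

/-- the monomials of degree `d` in `N + 1` variables -/
abbrev Mon (N d : ℕ) : Type := {m : Fin (N + 1) →₀ ℕ // m ∈ Finset.finsuppAntidiag (Finset.univ : Finset (Fin (N + 1))) d}

/-- `F` is a system of `N + 1` forms of degree `d` in `N + 1` variables with integral coefficients which differ by at most
`δ` from the numbers `y_(j, m)`, `j ≤ N`, `m` a monomial of degree `d` -/
def Near {N : ℕ} (d : ℕ) (y : Fin (N + 1) × Mon N d → ℝ) (δ : ℝ) (F : Fin (N + 1) → MvPolynomial (Fin (N + 1)) ℤ) :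
    Prop :=
  (∀ j, (F j).IsHomogeneous d) ∧ ∀ j, ∀ m : Mon N d, |(((F j).coeff m.1 : ℤ) : ℝ) - y (j, m)| ≤ δ

/-- **Theorem.** Let `N, D ≥ 1`. For all `d ≥ d₀(N, D)`, `M = (N + 1) (N + d choose N)`, every sequence `v ≥ 1` of exponent
of convergence at most `τ ≥ 0` and every `ρ < 1` there are:
(1) a set `E ⊂ ℝ^M` of Hausdorff dimension at most `(M - N + τ) / (1 - ρ)` such that for each `x` outside `E`, for all but
finitely many `i`, ALL endomorphisms `F` of `P^N` given by systems of `N + 1` forms of degree `d` with integral coefficients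
which differ from those of `v_i x` by at most `v_i ^ ρ` increase the height of all points of degree at most `D` and have no
preperiodic point of degree at most `D`;
(2) a set `E' ⊂ ℝ^M` of Hausdorff dimension at most `(M - 1 + τ) / (1 - ρ)` such that for each `x` outside `E'`, for all
but finitely many `i`, ALL such systems of forms are endomorphisms of `P^N`.
The sequences `v_i = (i + 1) ^ a` and `v_i = b ^ i` have exponent of convergence at most `1 / a` and `0`. -/
theorem result :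
    (∀ N D : ℕ, 1 ≤ N → 1 ≤ D → ∃ d₀ : ℕ, ∀ d : ℕ, d₀ ≤ d →
      ∀ (v : ℕ → ℝ) (τ ρ : ℝ), (∀ i, 1 ≤ v i) → 0 ≤ τ → ExpLe v τ → ρ < 1 →
      (∃ E : Set (Fin (N + 1) × Mon N d → ℝ),
        dimH E ≤ ENNReal.ofReal (((((N + 1) * (N + d).choose N : ℕ) : ℝ) - N + τ) / (1 - ρ)) ∧
        ∀ x : Fin (N + 1) × Mon N d → ℝ, x ∉ E → ∃ i₀ : ℕ, ∀ i : ℕ, i₀ ≤ i →
          ∀ F : Fin (N + 1) → MvPolynomial (Fin (N + 1)) ℤ, Near d (fun p => x p * v i) ((v i) ^ ρ) F →
            IsMorphism F → IncreasesHeights D F ∧ ¬ HasPreperiodicPoint D F) ∧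
      (∃ E : Set (Fin (N + 1) × Mon N d → ℝ),
        dimH E ≤ ENNReal.ofReal (((((N + 1) * (N + d).choose N : ℕ) : ℝ) - 1 + τ) / (1 - ρ)) ∧
        ∀ x : Fin (N + 1) × Mon N d → ℝ, x ∉ E → ∃ i₀ : ℕ, ∀ i : ℕ, i₀ ≤ i →
          ∀ F : Fin (N + 1) → MvPolynomial (Fin (N + 1)) ℤ, Near d (fun p => x p * v i) ((v i) ^ ρ) F →
            IsMorphism F)) ∧
    (∀ a : ℝ, 0 < a → ExpLe (fun n : ℕ => ((n : ℝ) + 1) ^ a) (1 / a)) ∧
    (∀ b : ℝ, 1 < b → ExpLe (fun n : ℕ => b ^ n) 0) := by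
  refine ⟨fun N D hN hD => ?_, fun κ hκ => Pool.Agent.Y854.GM.expLe_pow κ hκ,
    fun b hb => Pool.Agent.Y854.GM.expLe_geom b hb⟩
  obtain ⟨d₀, hd₀⟩ := AlmostAllEndomorphisms.result N D hN hD
  refine ⟨d₀, fun d hd v τ ρ hv hτ hE hρ => ?_⟩
  obtain ⟨hcard, hprep, ⟨C, hC, hcount⟩, -⟩ := hd₀ d hd
  set M : ℕ := (N + 1) * (N + d).choose N with hM
  have hNM : N + 1 ≤ M := by
    have h1 : 1 ≤ (N + d).choose N := Nat.choose_pos (by omega)
    calc N + 1 = (N + 1) * 1 := (mul_one _).symm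
      _ ≤ (N + 1) * (N + d).choose N := Nat.mul_le_mul_left _ h1
  have hfin : ∀ H : ℕ, (Sys N d H).Finite := fun H => Set.finite_of_ncard_ne_zero (by
    rw [hcard H]
    positivity)
  have hvp : ∀ i, 0 < v i := fun i => lt_of_lt_of_le one_pos (hv i)
  have hsys : ∀ (R : ℕ) (x : Fin (N + 1) × Mon N d → ℝ) (i : ℕ) (F : Fin (N + 1) → MvPolynomial (Fin (N + 1)) ℤ),
      (∀ (z : Fin (N + 1) × Mon N d → ℝ) (w ρ : ℝ), 1 ≤ w → ρ < 1 →
        (∀ j, |z j - x j * w| ≤ w ^ ρ) → ∀ j, |z j| ≤ R * w) →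
      Near d (fun p => x p * v i) ((v i) ^ ρ) F → F ∈ Sys N d ⌊(R : ℝ) * v i⌋₊ := by
    intro R x i F hRc hF j
    refine ⟨hF.1 j, fun m => ?_⟩
    by_cases hm : m.degree = d
    · have hmem : m ∈ Finset.finsuppAntidiag (Finset.univ : Finset (Fin (N + 1))) d := by
        rw [Finset.mem_finsuppAntidiag]
        refine ⟨?_, Finset.subset_univ _⟩
        rw [← hm, Finsupp.degree_eq_sum]
      have h3 := hRc (fun p => (((F p.1).coeff p.2.1 : ℤ) : ℝ)) (v i) ρ (hv i) hρ (fun p => hF.2 p.1 p.2) (j, ⟨m, hmem⟩)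
      simp only at h3
      rw [Int.abs_eq_natAbs]
      have h4 : ((((F j).coeff m).natAbs : ℕ) : ℝ) ≤ R * v i := by
        rw [Nat.cast_natAbs, Int.cast_abs]
        exact h3
      exact_mod_cast Nat.le_floor h4
    · have h1 : (F j).coeff m = 0 := (hF.1 j).coeff_eq_zero hm
      rw [h1, abs_zero]
      positivity
  have key : ∀ (P : (Fin (N + 1) → MvPolynomial (Fin (N + 1)) ℤ) → Prop) (e : ℕ), e ≤ M →
      (∀ H : ℕ, 1 ≤ H → ({F | F ∈ Sys N d H ∧ P F}.ncard : ℝ) ≤ C * (H : ℝ) ^ (M - e)) →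
      ∃ E : Set (Fin (N + 1) × Mon N d → ℝ),
        dimH E ≤ ENNReal.ofReal (((M : ℝ) - e + τ) / (1 - ρ)) ∧
        ∀ x : Fin (N + 1) × Mon N d → ℝ, x ∉ E → ∃ i₀ : ℕ, ∀ i : ℕ, i₀ ≤ i →
          ∀ F : Fin (N + 1) → MvPolynomial (Fin (N + 1)) ℤ, Near d (fun p => x p * v i) ((v i) ^ ρ) F → ¬ P F := by
    intro P e he hP
    have he' : (e : ℝ) ≤ M := by exact_mod_cast he
    obtain ⟨E, hE1, hE2⟩ := Pool.Agent.X174.winFam (κ := Fin (N + 1) × Mon N d)
      (Q := Fin (N + 1) → MvPolynomial (Fin (N + 1)) ℤ) (fun F p => (((F p.1).coeff p.2.1 : ℤ) : ℝ))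
      (fun T => {F | F ∈ Sys N d ⌊T⌋₊ ∧ P F}) (s := (M : ℝ) - e) (C := C) (by linarith)
      (fun T hT => by
        have hT1 : 1 ≤ ⌊T⌋₊ := Nat.le_floor (by exact_mod_cast hT)
        refine ⟨(hfin ⌊T⌋₊).subset fun F hF => hF.1, (hP ⌊T⌋₊ hT1).trans ?_⟩
        rw [show ((M : ℝ) - e) = ((M - e : ℕ) : ℝ) by rw [Nat.cast_sub he], Real.rpow_natCast]
        exact mul_le_mul_of_nonneg_left (pow_le_pow_left₀ (by positivity) (Nat.floor_le (by linarith)) _) hC.le)
      hv hτ hE hρ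
    refine ⟨E, hE1, fun x hx => ?_⟩
    obtain ⟨R, hR, hRc⟩ := Pool.Agent.X174.le_of_cube x
    obtain ⟨i₁, hi₁⟩ := hE2 x hx R hR
    exact ⟨i₁, fun i hi F hF hPF => hi₁ i hi F (fun p => hF.2 p.1 p.2) ⟨hsys R x i F hRc hF, hPF⟩⟩
  constructor
  · obtain ⟨E, hE1, hE2⟩ := key (fun F => IsMorphism F ∧ ¬ IncreasesHeights D F) N (by omega)
      (fun H hH => (hcount H hH).2.1)
    refine ⟨E, hE1, fun x hx => ?_⟩
    obtain ⟨R, hR, hRc⟩ := Pool.Agent.X174.le_of_cube x
    obtain ⟨i₁, hi₁⟩ := hE2 x hx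
    refine ⟨i₁, fun i hi F hF hmor => ?_⟩
    have hinc : IncreasesHeights D F := by
      by_contra hcon
      exact hi₁ i hi F hF ⟨hmor, hcon⟩
    exact ⟨hinc, hprep _ F (hsys R x i F hRc hF) hmor hinc⟩
  · obtain ⟨E, hE1, hE2⟩ := key (fun F => ¬ IsMorphism F) 1 (by omega)
      (fun H hH => (hcount H hH).1)
    refine ⟨E, by simpa using hE1, fun x hx => ?_⟩
    obtain ⟨i₁, hi₁⟩ := hE2 x hx
    exact ⟨i₁, fun i hi F hF => not_not.1 (hi₁ i hi F hF)⟩

end Pool.Agent.Results.MP_13bc7b_nt.EndomorphismsInCubes
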