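import Pool.Agent.X295.PfD

/-!
# MP_13bc7b_nt: families of endomorphisms of `P^N` with several parameters, with a power saving

Let `K` be a number field of degree `n`, and let `A = (A_1, …, A_N)` be forms of degree `d` over `K` with no common
zero except the origin.  Consider the family of endomorphisms of `P^N` which are given on the affine space by

  `f_t(x)_i = A_i(x) + ∑_{|α| < d} p_{i,α}(t) x^α`, `t ∈ K^m`,

where the `p_{i,α}` are polynomials over `K` in `m` variables of degree at most `δ (1 - |α| / d)`, and a constant term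
`p_{i,0}` has the degree `δ ≥ 1`.  Then for all but `O(H^(n (m + 1) - 1 + n/β + ε))` of the parameters `t` of height
at most `H`, where `β = d / gcd(d, B! δ)`, ALL preperiodic points of `f_t` over ALL extensions `L` of `K` of degree at
most `B` are in the hyperplane at infinity (for `N = 1`: the point at infinity is the only preperiodic point over `L`).

Proof.  Write `t = (x_1 / x_0, …, x_m / x_0)` with integers `x_i` of `K`.  Let `v` be a place with `v(x_0) = k > 0`,
prime to the numerator of the constant term of degree `δ` and to a fixed number.  If `w` is a place of `L` above `v`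
with ramification index `e` and `y` is a preperiodic point, then the minimum of the valuations of the coordinates of
`y` is `- δ e k / d`: otherwise the orbit of `y` escapes to infinity.  So `d` divides `δ e k`, and `β` divides `k`.
By elimination and by a count of the numbers which are perfect `β`-th powers up to divisors of a given number, this
happens for few `x` (`Pool.Agent.X295.GalA` to `GalK` and `PfA`).
-/

set_option autoImplicit false

open MvPolynomial NumberField

namespace Pool.Agent.Results.MP_13bc7b_nt.FamiliesSeveralParameters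

section
variable {K : Type} [Field K] {N : ℕ}

/-- A morphism of degree `d` from `P^N` to itself: forms of degree `d` with no common zero except the origin. -/
def IsMorphism (d : ℕ) (F : Fin N → MvPolynomial (Fin N) K) : Prop :=
  (∀ i, (F i).IsHomogeneous d) ∧
    ∀ y : Fin N → AlgebraicClosure K, (∀ i, aeval y (F i) = 0) → y = 0

/-- The vector `y ≠ 0` represents a preperiodic point over `L`. -/
def IsPreperiodic (L : Type) [Field L] [Algebra K L] (F : Fin N → MvPolynomial (Fin N) K)
    (y : Fin N → L) : Prop :=
  y ≠ 0 ∧ ∃ a b : ℕ, a < b ∧ ∃ c : L, c ≠ 0 ∧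
    (fun (x : Fin N → L) i => aeval x (F i))^[b] y =
      c • (fun (x : Fin N → L) i => aeval x (F i))^[a] y

/-- The homogenization of degree `d`, with the new variable `X 0`. -/
noncomputable def homogenize (d : ℕ) (f : MvPolynomial (Fin N) K) :
    MvPolynomial (Fin (N + 1)) K :=
  ∑ α ∈ f.support, monomial (Finsupp.cons (d - α.degree) α) (coeff α f)

variable {m : ℕ}

/-- The member at `t` of the family with the leading forms `A i` and the other coefficients given by the
`P i`: the endomorphism `(X_0^d, F_1, …, F_N)` of `P^N`, where `F_i` is the homogenization of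
`A_i + P_i(t)`. -/
noncomputable def member (d : ℕ) (A : Fin N → MvPolynomial (Fin N) K)
    (P : Fin N → MvPolynomial (Fin N) (MvPolynomial (Fin m) K)) (t : Fin m → K) :
    Fin (N + 1) → MvPolynomial (Fin (N + 1)) K :=
  Fin.cons (X 0 ^ d) fun i => homogenize d (A i + MvPolynomial.map (eval t) (P i))

/-- The leading forms are of degree `d` and have no common zero except the origin, all other coefficients
`p_{i,α}` have `|α| < d` and degree at most `δ (d - |α|) / d` in the parameters, and one of the constant
terms has the degree `δ ≥ 1`. -/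
structure IsFamily (d δ : ℕ) (A : Fin N → MvPolynomial (Fin N) K)
    (P : Fin N → MvPolynomial (Fin N) (MvPolynomial (Fin m) K)) : Prop where
  leading : IsMorphism d A
  lower : ∀ i α, coeff α (P i) ≠ 0 → α.degree < d ∧
    d * (coeff α (P i)).totalDegree ≤ δ * (d - α.degree)
  constant : ∃ i, (coeff 0 (P i)).totalDegree = δ
  pos : 1 ≤ δ

end

section
variable {K : Type} [Field K] [NumberField K] {ι : Type} [Fintype ι] {N m : ℕ}

/-- The height of `t` is at most `H`: `t = (x_1 / x_0, …, x_m / x_0)` with integers `x_i` of `K` whose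
coordinates in the basis `ω` are at most `H`. -/
def HeightLe (ω : Module.Basis ι ℤ (𝓞 K)) (H : ℕ) (t : Fin m → K) : Prop :=
  ∃ x : Fin (m + 1) → 𝓞 K, x 0 ≠ 0 ∧ (∀ i k, |ω.repr (x i) k| ≤ H) ∧
    ∀ j, t j = (x j.succ : K) / (x 0 : K)

/-- The parameters `t` of height at most `H` such that, for some extension `L` of `K` of degree at most
`B`, the member at `t` has a preperiodic point over `L` outside the hyperplane at infinity. -/
def Exceptions (ω : Module.Basis ι ℤ (𝓞 K)) (d : ℕ) (A : Fin N → MvPolynomial (Fin N) K)
    (P : Fin N → MvPolynomial (Fin N) (MvPolynomial (Fin m) K)) (B H : ℕ) : Set (Fin m → K) :=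
  {t | HeightLe ω H t ∧ ∃ (L : Type) (_ : Field L) (_ : NumberField L) (_ : Algebra K L),
    Module.finrank K L ≤ B ∧ ∃ y : Fin (N + 1) → L,
      IsPreperiodic L (member d A P t) y ∧ y 0 ≠ 0}

end

theorem at_infinity {K : Type} [Field K] {N m d : ℕ} (hd : 1 ≤ d)
    {A : Fin N → MvPolynomial (Fin N) K}
    {P : Fin N → MvPolynomial (Fin N) (MvPolynomial (Fin m) K)} (hA : ∀ i, (A i).IsHomogeneous d)
    (hP : ∀ i α, coeff α (P i) ≠ 0 → α.degree < d) (t : Fin m → K) (L : Type) [Field L]
    [Algebra K L] {y : Fin (N + 1) → L} (hy : y 0 = 0) (n : ℕ) :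
    (fun (x : Fin (N + 1) → L) i => aeval x (member d A P t i))^[n] y =
      Fin.cons 0 ((fun (x : Fin N → L) i => aeval x (A i))^[n] fun j => y j.succ) := by
  induction n with
  | zero =>
    funext i
    refine Fin.cases ?_ (fun j => ?_) i
    · exact hy
    · rfl
  | succ n ih =>
    rw [Function.iterate_succ_apply', Function.iterate_succ_apply', ih]
    set z := (fun (x : Fin N → L) i => aeval x (A i))^[n] fun j => y j.succ with hz
    funext i
    refine Fin.cases ?_ (fun j => ?_) i
    · show aeval _ (member d A P t 0) = _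
      unfold member
      rw [Fin.cons_zero, map_pow, aeval_X, Fin.cons_zero, Fin.cons_zero, zero_pow (by omega)]
    · show aeval _ (member d A P t j.succ) = _
      unfold member
      rw [Fin.cons_succ, Fin.cons_succ]
      refine (Pool.Agent.X295.Pf.aeval_hmg_zero (y := Fin.cons 0 z) (hA j) (fun α hα => ?_)
        (Fin.cons_zero _ _)).trans ?_
      · apply hP j α
        rw [mem_support_iff] at hα
        intro h3
        apply hα
        rw [coeff_map, h3, map_zero]
      · rfl

/-- **Few members with preperiodic points outside the hyperplane at infinity.** -/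
theorem result (K : Type) [Field K] [NumberField K] {ι : Type} [Fintype ι]
    (ω : Module.Basis ι ℤ (𝓞 K)) (N m d δ B : ℕ) (hd : 2 ≤ d)
    (A : Fin N → MvPolynomial (Fin N) K)
    (P : Fin N → MvPolynomial (Fin N) (MvPolynomial (Fin m) K)) (hF : IsFamily d δ A P) :
    (∀ t : Fin m → K, IsMorphism d (member d A P t)) ∧
    (∀ (t : Fin m → K) (L : Type) [Field L] [Algebra K L] (y : Fin (N + 1) → L), y 0 = 0 →
      (IsPreperiodic L (member d A P t) y ↔ IsPreperiodic L A fun j => y j.succ)) ∧
    ∀ ε : ℝ, 0 < ε → ∃ C : ℝ, ∀ H : ℕ, 1 ≤ H → (Exceptions ω d A P B H).Finite ∧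
      ((Exceptions ω d A P B H).ncard : ℝ) ≤
        C * (H : ℝ) ^ (((m : ℝ) + 1) * Module.finrank ℚ K - 1 +
          (Module.finrank ℚ K : ℝ) / (d / Nat.gcd d (B.factorial * δ) : ℕ) + ε) := by
  obtain ⟨⟨h1, h2⟩, h3, h4, h5⟩ := hF
  have h6 : ∀ i, ∀ α ∈ (P i).support, α.degree < d ∧
      d * (coeff α (P i)).totalDegree ≤ δ * (d - α.degree) :=
    fun i α hα => h3 i α (mem_support_iff.1 hα)
  have h7 : ∀ i, ∀ α ∈ (P i).support, α.degree < d := fun i α hα => (h6 i α hα).1
  refine ⟨fun t => Pool.Agent.X295.Pf.ext_morphism (by omega) h1 h2 h7 t,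
    fun t L _ _ y hy => ?_, fun ε hε => ?_⟩
  · unfold IsPreperiodic
    have hinf := at_infinity (P := P) (by omega) h1 (fun i α hα => (h3 i α hα).1) t L hy
    simp only [hinf]
    refine and_congr ?_ (exists_congr fun a => exists_congr fun b => and_congr_right fun _ =>
      exists_congr fun c => and_congr_right fun _ => ?_)
    · refine not_congr ⟨fun h => ?_, fun h => ?_⟩
      · rw [h]; rfl
      · funext i
        refine Fin.cases hy (fun j => ?_) i
        exact congrFun h j
    · constructor
      · intro h
        funext j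
        have h8 := congrFun h j.succ
        rwa [Pi.smul_apply, Fin.cons_succ, Fin.cons_succ] at h8
      · intro h
        funext i
        refine Fin.cases ?_ (fun j => ?_) i
        · rw [Pi.smul_apply, Fin.cons_zero, Fin.cons_zero, smul_zero]
        · rw [Pi.smul_apply, Fin.cons_succ, Fin.cons_succ, h]
          rfl
  obtain ⟨C, -, hC⟩ := Pool.Agent.X295.Pf.few hd h1 h2 ω P δ B h5 h6 h4 ε hε
  refine ⟨C, fun H hH => hC H hH _ ?_⟩
  rintro t ⟨ht, L, iF, iN, iA, hL, y, ⟨-, a, b, hab, c, hc, he⟩, hy⟩
  exact ⟨ht, L, iF, iN, iA, hL, _, a, b, hab, Pool.Agent.X295.Pf.ext_preper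
    (fun i => Pool.Agent.X295.Pf.member_deg h1 h7 t i) hy hc he⟩

end Pool.Agent.Results.MP_13bc7b_nt.FamiliesSeveralParameters
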