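import Pool.Agent.Results.MP_13bc7b_nt.UnicriticalLargeDegree
import Pool.Agent.X134.Win.NearZ

/-!
# Unicritical polynomials of large degree whose invariant is near a generic real number

Every polynomial of degree `d` over `ℚ` with a single critical point in the plane is conjugate over `ℚ` to some
`a z ^ d + b`, and for `b ≠ 0` its class over an algebraic closure is given by the invariant `t = a * b ^ (d - 1)`. There is
a set `E` of real numbers of Hausdorff dimension zero such that for every real number `x` outside `E` and every `η > 0`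
there are `d₀`, `Y₀` and `δ > 0` with the following property. For all real `Y ≥ Y₀`, ALL degrees `d₀ ≤ d ≤ Y ^ δ` and ALL
nonzero rational `a, b` such that `t = a * b ^ (d - 1)` has height at most `Y ^ (d * (d - 1))` and `|t - x| ≤ Y ^ (-η)`, the
polynomial `a z ^ d + b` has at most five rational preperiodic points. In particular, for each `d ≥ d₀` this holds whenever
`t` has a large height `H` and `|t - x| ≤ H ^ (-η / (d * (d - 1)))`.
-/

set_option autoImplicit false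

open Filter Topology
open scoped ENNReal

namespace Pool.Agent.Results.MP_13bc7b_nt.GenericInvariant

/-- the height of a rational number -/
def height (q : ℚ) : ℕ := max q.num.natAbs q.den

/-- the polynomial `a z ^ d + b` -/
def unicritical (a b : ℚ) (d : ℕ) (z : ℚ) : ℚ := a * z ^ d + b

/-- the rational preperiodic points -/
def preperiodic (f : ℚ → ℚ) : Set ℚ := {z | (Set.range fun n : ℕ => f^[n] z).Finite}

open Pool.Agent.X134.Win (two ht one_le_two near_zero exists_two rpow_le_two)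

lemma heightLE_of {B : ℕ} {q : ℚ} (h : ht q ≤ B) : UnicriticalLargeDegree.HeightLE B q := by
  have h1 : q.num.natAbs ≤ B := le_trans (le_max_left _ _) h
  have h2 : q.den ≤ B := le_trans (le_max_right _ _) h
  refine ⟨?_, h2⟩
  rw [Int.abs_eq_natAbs]
  exact_mod_cast h1

lemma two_eq (n : ℕ) : (((2 ^ n : ℕ)) : ℝ) = two n := by
  unfold two
  push_cast
  rfl

lemma main : ∃ E : Set ℝ, dimH E = 0 ∧ ∀ x : ℝ, x ∉ E → ∀ η : ℝ, 0 < η →
    ∃ (d₀ : ℕ) (Y₀ δ : ℝ), 2 ≤ d₀ ∧ 0 < δ ∧ 1 ≤ Y₀ ∧ ∀ Y : ℝ, Y₀ ≤ Y → ∀ d : ℕ, d₀ ≤ d → (d : ℝ) ≤ Y ^ δ →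
      ∀ a b : ℚ, a ≠ 0 → b ≠ 0 → (height (a * b ^ (d - 1)) : ℝ) ≤ Y ^ (d * (d - 1)) →
      |((a * b ^ (d - 1) : ℚ) : ℝ) - x| ≤ Y ^ (-η) → (preperiodic (unicritical a b d)).encard ≤ 5 := by
  have he : ∀ m : ℕ, (0 : ℝ) < 1 / ((m : ℝ) + 1) := fun m => by positivity
  choose d₀ δ hδ hres using fun m : ℕ => UnicriticalLargeDegree.result (1 / ((m : ℝ) + 1)) (he m)
  obtain ⟨E, hE1, hE2⟩ := near_zero (X := ℝ) (T := ℚ)
    (fun m n => Prod.snd '' UnicriticalLargeDegree.exceptional (d₀ m) (δ m) (2 ^ n)) (fun t => (t : ℝ)) 1 zero_le_one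
    (fun m => ⟨1, fun n => by
      obtain ⟨h1, h2⟩ := hres m (2 ^ n) Nat.one_le_two_pow
      refine ⟨h1.image _, ?_⟩
      rw [one_mul, one_mul]
      refine (Nat.cast_le.2 (Set.ncard_image_le h1)).trans (h2.trans (le_of_eq ?_))
      rw [two_eq]⟩)
  refine ⟨E, hE1, fun x hx η hη => ?_⟩
  obtain ⟨m, -, n₀, hn₀⟩ := hE2 x hx (min η 1) (lt_min hη one_pos) 0
  refine ⟨max 2 (d₀ m), max 1 (two n₀), δ m, le_max_left _ _, hδ m, le_max_left _ _,
    fun Y hY d hd1 hd2 a b ha hb hc hcx => ?_⟩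
  have hY1 : 1 ≤ Y := le_trans (le_max_left _ _) hY
  have hYp : 0 < Y := by linarith
  obtain ⟨n, hn1, hn2⟩ := exists_two Y hY1
  have hnn : n₀ ≤ n := by
    by_contra hcon
    rw [not_le] at hcon
    have h5 : two n < two n₀ := pow_lt_pow_right₀ (by norm_num) hcon
    have h6 : two n₀ ≤ Y := le_trans (le_max_right _ _) hY
    linarith
  by_contra hcon
  rw [not_le] at hcon
  have hmem : (d, a * b ^ (d - 1)) ∈ UnicriticalLargeDegree.exceptional (d₀ m) (δ m) (2 ^ n) := by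
    refine ⟨(le_max_right _ _).trans hd1, ?_, heightLE_of ?_, a, b, ha, hb, rfl, hcon⟩
    · show (d : ℝ) ≤ (((2 ^ n : ℕ)) : ℝ) ^ δ m
      rw [two_eq]
      exact hd2.trans (Real.rpow_le_rpow hYp.le hn1 (hδ m).le)
    · have h1 : (height (a * b ^ (d - 1)) : ℝ) ≤ (((2 ^ n) ^ (d * (d - 1)) : ℕ) : ℝ) := by
        rw [Nat.cast_pow, two_eq]
        exact hc.trans (pow_le_pow_left₀ hYp.le hn1 _)
      show height (a * b ^ (d - 1)) ≤ (2 ^ n) ^ (d * (d - 1))
      exact_mod_cast h1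
  have h1 := hn₀ n hnn (a * b ^ (d - 1)) ⟨_, hmem, rfl⟩
  rw [Real.dist_eq] at h1
  exact absurd (hcx.trans (rpow_le_two n hY1 hη.le hn2)) (not_le.2 h1)

/-- **Theorem.** There is a set `E` of Hausdorff dimension zero such that for every real `x ∉ E` and every `η > 0` there
are `d₀ ≥ 2`, `Y₀` and `δ > 0` such that (1) for all `Y ≥ Y₀`, all `d₀ ≤ d ≤ Y ^ δ` and all nonzero rational `a, b` such that
`t = a * b ^ (d - 1)` has height at most `Y ^ (d * (d - 1))` and `|t - x| ≤ Y ^ (-η)` the polynomial `a z ^ d + b` has at most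
five rational preperiodic points; (2) for every `d ≥ d₀` there is `H₀` such that the same holds for all nonzero rational
`a, b` such that `t` has height `H ≥ H₀` and `|t - x| ≤ H ^ (-η / (d * (d - 1)))`. -/
theorem result : ∃ E : Set ℝ, dimH E = 0 ∧ ∀ x : ℝ, x ∉ E → ∀ η : ℝ, 0 < η →
    ∃ (d₀ : ℕ) (Y₀ δ : ℝ), 2 ≤ d₀ ∧ 0 < δ ∧
      (∀ Y : ℝ, Y₀ ≤ Y → ∀ d : ℕ, d₀ ≤ d → (d : ℝ) ≤ Y ^ δ → ∀ a b : ℚ, a ≠ 0 → b ≠ 0 →
        (height (a * b ^ (d - 1)) : ℝ) ≤ Y ^ (d * (d - 1)) →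
        |((a * b ^ (d - 1) : ℚ) : ℝ) - x| ≤ Y ^ (-η) → (preperiodic (unicritical a b d)).encard ≤ 5) ∧
      ∀ d : ℕ, d₀ ≤ d → ∃ H₀ : ℝ, ∀ a b : ℚ, a ≠ 0 → b ≠ 0 → H₀ ≤ height (a * b ^ (d - 1)) →
        |((a * b ^ (d - 1) : ℚ) : ℝ) - x| ≤ (height (a * b ^ (d - 1)) : ℝ) ^ (-η / (d * (d - 1))) →
        (preperiodic (unicritical a b d)).encard ≤ 5 := by
  obtain ⟨E, hE1, hE2⟩ := main
  refine ⟨E, hE1, fun x hx η hη => ?_⟩
  obtain ⟨d₀, Y₀, δ, h1, h2, h3, h4⟩ := hE2 x hx η hη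
  refine ⟨d₀, Y₀, δ, h1, h2, h4, fun d hd => ?_⟩
  have hd2 : 2 ≤ d := h1.trans hd
  have hdr : (0 : ℝ) < d := by exact_mod_cast (by omega : 0 < d)
  set e : ℕ := d * (d - 1) with he
  have he0 : 0 < e := Nat.mul_pos (by omega) (by omega)
  have her : (0 : ℝ) < e := by exact_mod_cast he0
  have hee : ((d : ℝ) * (d - 1)) = e := by
    rw [he, Nat.cast_mul, Nat.cast_sub (by omega)]
    simp
  refine ⟨(max Y₀ ((d : ℝ) ^ (1 / δ))) ^ e, fun a b ha hb hc hcx => ?_⟩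
  have hMp : 0 ≤ max Y₀ ((d : ℝ) ^ (1 / δ)) := le_trans (by linarith) (le_max_left _ _)
  set t : ℚ := a * b ^ (d - 1) with ht
  set Y : ℝ := (height t : ℝ) ^ (1 / (e : ℝ)) with hY
  have hh0 : (0 : ℝ) ≤ height t := Nat.cast_nonneg _
  have hYd : Y ^ e = height t := by
    rw [hY, ← Real.rpow_natCast, ← Real.rpow_mul hh0, one_div_mul_cancel her.ne', Real.rpow_one]
  have hYM : max Y₀ ((d : ℝ) ^ (1 / δ)) ≤ Y := by
    have h5 : ((max Y₀ ((d : ℝ) ^ (1 / δ))) ^ e) ^ (1 / (e : ℝ)) ≤ Y :=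
      Real.rpow_le_rpow (by positivity) hc (by positivity)
    rwa [← Real.rpow_natCast, ← Real.rpow_mul hMp, mul_one_div_cancel her.ne', Real.rpow_one] at h5
  refine h4 Y ((le_max_left _ _).trans hYM) d hd (by
    have h7 : ((d : ℝ) ^ (1 / δ)) ^ δ ≤ Y ^ δ :=
      Real.rpow_le_rpow (by positivity) ((le_max_right _ _).trans hYM) h2.le
    rwa [← Real.rpow_mul hdr.le, one_div_mul_cancel h2.ne', Real.rpow_one] at h7) a b ha hb hYd.ge (by
      refine hcx.trans (le_of_eq ?_)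
      rw [hY, ← Real.rpow_mul hh0, hee]
      congr 1
      field_simp)

end Pool.Agent.Results.MP_13bc7b_nt.GenericInvariant
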